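import Pool.Agent.H191Z.ParaProof

set_option autoImplicit false

namespace Pool.Agent.Results.MP_104382_al.ANotFParadoxical

open Pool.Agent.H191Z.Para

/-- No dense subset of the open unit square (in particular not the open unit square itself) is
paradoxical for the group `F` generated by the two shears. -/
theorem result (E : Set (Fin 2 → ℝ)) (hE : E ⊆ square) (hd : square ⊆ closure E) :
    ¬ Paradoxical grpF E :=
  not_paradoxical E hE hd

end Pool.Agent.Results.MP_104382_al.ANotFParadoxical
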